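import Pool.Agent.H444.CL.Stm

set_option autoImplicit false

/-!
# LB: lower bound for the real part of the reflected logarithmic derivative
-/

namespace Pool.Agent.H997.CLLB

open Filter Topology MeasureTheory Complex Set Metric
open scoped ComplexConjugate
open H370 H370.Loc Pool.Agent.H444.CL

noncomputable section

theorem count_eq_mult {f g : ℂ → ℂ} {s : Multiset ℂ} {ρ : ℂ} (hf : AnalyticAt ℂ f ρ)
    (hg : AnalyticAt ℂ g ρ) (hg0 : g ρ ≠ 0) (h : ∀ z, f z = Pf s z * g z) :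
    s.count ρ = mult f ρ := by
  classical
  have h1 : s = Multiset.replicate (s.count ρ) ρ + s.filter (fun x => ¬ (ρ = x)) := by
    rw [← Multiset.filter_eq]
    exact (Multiset.filter_add_not _ s).symm
  have h2 : ∀ z, Pf s z = (z - ρ) ^ (s.count ρ) * Pf (s.filter (fun x => ¬ (ρ = x))) z := by
    intro z
    conv_lhs => rw [h1]
    unfold Pf
    rw [Multiset.map_add, Multiset.prod_add, Multiset.map_replicate, Multiset.prod_replicate]
  have h3 : analyticOrderAt f ρ = (s.count ρ : ℕ∞) := by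
    rw [hf.analyticOrderAt_eq_natCast]
    refine ⟨fun z => Pf (s.filter (fun x => ¬ (ρ = x))) z * g z, ?_, ?_, ?_⟩
    · exact ((Pf_diff _).analyticAt ρ).mul hg
    · refine mul_ne_zero (Pf_ne_zero fun x hx => ?_) hg0
      exact (Multiset.mem_filter.1 hx).2
    · filter_upwards with z
      rw [h z, h2 z, smul_eq_mul, mul_assoc]
  unfold mult analyticOrderNatAt
  rw [h3]
  rfl

theorem Pf_logDeriv_eq {s : Multiset ℂ} {z : ℂ} (h : ∀ ρ ∈ s, z ≠ ρ) :
    logDeriv (Pf s) z = (s.map fun ρ => 1 / (z - ρ)).sum := by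
  induction s using Multiset.induction_on with
  | empty =>
    have : Pf 0 = fun _ => (1 : ℂ) := funext Pf_zero
    rw [this]
    simp [logDeriv]
  | cons ρ s ih =>
    have h0 : Pf (ρ ::ₘ s) = fun z => (z - ρ) * Pf s z := funext (Pf_cons ρ s)
    have hz : z - ρ ≠ 0 := sub_ne_zero.2 (h ρ (Multiset.mem_cons_self ρ s))
    have hP : Pf s z ≠ 0 := Pf_ne_zero fun ρ' h' => h ρ' (Multiset.mem_cons_of_mem h')
    have e1 : logDeriv (fun z => (z - ρ) * Pf s z) z =
        logDeriv (fun z => z - ρ) z + logDeriv (Pf s) z :=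
      logDeriv_mul z hz hP (differentiableAt_id.sub_const ρ) (Pf_diff s z)
    have e2 : logDeriv (fun z => z - ρ) z = 1 / (z - ρ) := by
      rw [logDeriv_apply]
      congr 1
      simp
    rw [h0, e1, e2, ih fun ρ' h' => h ρ' (Multiset.mem_cons_of_mem h'), Multiset.map_cons,
      Multiset.sum_cons]

theorem local_fact {f : ℂ → ℂ} {c : ℂ} {r r1 r2 R M : ℝ} (hr2 : 0 < r2) (h21 : r2 < r1)
    (h1r : r1 < r) (hrR : r < R) (hRr : R ≤ 2 * r) (hM : 1 ≤ M) (hMf : ‖f c‖ ≤ M)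
    (hf : AnalyticOnNhd ℂ f (closedBall c R)) (hc : f c ≠ 0)
    (hb : ∀ z ∈ closedBall c R, ‖f z‖ ≤ M) :
    ∃ (s : Multiset ℂ) (g : ℂ → ℂ), (∀ ρ ∈ s, ρ ∈ closedBall c r ∧ f ρ = 0) ∧
      AnalyticOnNhd ℂ g (closedBall c R) ∧ (∀ z, f z = Pf s z * g z) ∧
      (∀ z ∈ closedBall c r, g z ≠ 0) ∧
      ∀ z ∈ closedBall c r2, ‖logDeriv g z‖ ≤
        2 * (Real.log (M / ‖f c‖) + Real.log (M / ‖f c‖) / Real.log (R / r) *
          Real.log (r / (R - r)) + 1) * r1 / (r - r1) / (r1 - r2) := by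
  have hr : 0 < r := by linarith
  have hR : 0 < R := by linarith
  obtain ⟨s, g, hs, hg, hfg, hg0, hcard⟩ := extract hr hrR hM hf hc hb
  refine ⟨s, g, hs, hg, hfg, hg0, ?_⟩
  intro z hz
  have hzr : z ∈ closedBall c r := closedBall_subset_closedBall (by linarith) hz
  have hzR : z ∈ closedBall c R := closedBall_subset_closedBall hrR.le hzr
  have hcr : c ∈ closedBall c r := mem_closedBall_self hr.le
  have hcR : c ∈ closedBall c R := mem_closedBall_self hR.le
  have hfc : 0 < ‖f c‖ := norm_pos_iff.2 hc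
  set n := Multiset.card s with hn
  have hlogM : 0 ≤ Real.log (M / ‖f c‖) := Real.log_nonneg (by rw [le_div_iff₀ hfc]; linarith)
  have hRr0 : 0 < R - r := by linarith
  have hq : 1 ≤ r / (R - r) := by rw [le_div_iff₀ hRr0]; linarith
  have hlogq : 0 ≤ Real.log (r / (R - r)) := Real.log_nonneg hq
  -- bounds for g
  have hgsphere : ∀ w ∈ sphere c R, ‖g w‖ ≤ M / (R - r) ^ n := by
    intro w hw
    have hwR := sphere_subset_closedBall hw
    have h1 : (R - r) ^ n ≤ ‖Pf s w‖ := Pf_norm_ge hRr0.le fun ρ hρ => by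
      have h2 := (hs ρ hρ).1
      rw [mem_closedBall, dist_eq_norm] at h2
      rw [mem_sphere, dist_eq_norm] at hw
      have h3 : ‖w - c‖ ≤ ‖w - ρ‖ + ‖ρ - c‖ := by
        calc ‖w - c‖ = ‖(w - ρ) + (ρ - c)‖ := by congr 1; ring
          _ ≤ _ := norm_add_le _ _
      linarith
    rw [le_div_iff₀ (by positivity)]
    calc ‖g w‖ * (R - r) ^ n ≤ ‖g w‖ * ‖Pf s w‖ := mul_le_mul_of_nonneg_left h1 (norm_nonneg _)
      _ = ‖f w‖ := by rw [hfg w, norm_mul, mul_comm]
      _ ≤ M := hb w hwR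
  have hgball : ∀ w ∈ closedBall c R, ‖g w‖ ≤ M / (R - r) ^ n := by
    intro w hw
    refine Complex.norm_le_of_forall_mem_frontier_norm_le (U := ball c R) isBounded_ball ?_ ?_ ?_
    · apply DifferentiableOn.diffContOnCl
      rw [closure_ball c hR.ne']
      exact fun x hx => (hg x hx).differentiableAt.differentiableWithinAt
    · intro x hx
      rw [frontier_ball c hR.ne'] at hx
      exact hgsphere x hx
    · rwa [closure_ball c hR.ne']
  have hgc : ‖f c‖ / r ^ n ≤ ‖g c‖ := by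
    rw [div_le_iff₀ (by positivity)]
    have h1 : ‖Pf s c‖ ≤ r ^ n := Pf_norm_le fun ρ hρ => by
      have h2 := (hs ρ hρ).1
      rw [mem_closedBall, dist_eq_norm, norm_sub_rev] at h2
      exact h2
    calc ‖f c‖ = ‖g c‖ * ‖Pf s c‖ := by rw [hfg c, norm_mul, mul_comm]
      _ ≤ ‖g c‖ * r ^ n := mul_le_mul_of_nonneg_left h1 (norm_nonneg _)
  set B : ℝ := Real.log (M / ‖f c‖) + n * Real.log (r / (R - r)) with hB
  have hB0 : 0 ≤ B := by positivity
  have hexpB : Real.exp B = M / ‖f c‖ * (r / (R - r)) ^ n := by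
    rw [hB, Real.exp_add, Real.exp_log (by positivity), Real.exp_nat_mul,
      Real.exp_log (by positivity)]
  have hgb : ∀ w ∈ closedBall c r, ‖g w‖ ≤ Real.exp B * ‖g c‖ := by
    intro w hw
    refine (hgball w (closedBall_subset_closedBall hrR.le hw)).trans ?_
    rw [hexpB]
    calc M / (R - r) ^ n = M / ‖f c‖ * (r / (R - r)) ^ n * (‖f c‖ / r ^ n) := by
          rw [div_pow]; field_simp
      _ ≤ _ := mul_le_mul_of_nonneg_left hgc (by positivity)
  have hlg := logDeriv_zero_free hr2 h21 h1r hB0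
    (hg.mono (closedBall_subset_closedBall hrR.le)) hg0 hgb hz
  refine hlg.trans ?_
  have h8 : B ≤ Real.log (M / ‖f c‖) + Real.log (M / ‖f c‖) / Real.log (R / r) *
        Real.log (r / (R - r)) := by
    rw [hB]
    have := mul_le_mul_of_nonneg_right hcard hlogq
    linarith
  have h9 : 0 < r - r1 := by linarith
  have h10 : 0 < r1 - r2 := by linarith
  have h11 : 0 < r1 := by linarith
  gcongr

/-! ### the sum over the zeros -/

theorem zsum {F : ℂ → ℂ} (hF : GoodL F) : ∃ C : ℝ, 0 < C ∧ ∀ T : ℝ, 20 ≤ T →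
    ∀ t : ℝ, ∀ w : ℤ → ℝ, (∀ k, 0 ≤ w k) → ∀ g : ℂ → ℝ,
      (∀ s ∈ ZT F T, g s ≤ w ⌊s.im - t⌋) →
      ∑ s ∈ ZT F T, (mult F s : ℝ) * g s ≤
        C * Real.log T * ∑ k ∈ (ZT F T).image (fun s => ⌊s.im - t⌋), w k := by
  classical
  obtain ⟨C, hC, hcount⟩ := zcount hF
  refine ⟨2 * C, by positivity, fun T hT t w hw g hg => ?_⟩
  unfold ZT at hg ⊢
  have hU : 1 ≤ T / 2 := by linarith
  rw [← Finset.sum_fiberwise_of_maps_to (s := Zf F (T / 2) (4 * T))
    (t := (Zf F (T / 2) (4 * T)).image (fun s => ⌊s.im - t⌋)) (g := fun s => ⌊s.im - t⌋)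
    (fun s hs => Finset.mem_image_of_mem _ hs), Finset.mul_sum]
  refine Finset.sum_le_sum fun k hk => ?_
  obtain ⟨s0, hs0, hk0⟩ := Finset.mem_image.mp hk
  have hs0' := (mem_Zf hF hU).mp hs0
  set t' : ℝ := t + k + 1 / 2 with ht'
  have hkl : (k : ℝ) ≤ s0.im - t := by rw [← hk0]; exact Int.floor_le _
  have hku : s0.im - t < k + 1 := by rw [← hk0]; exact Int.lt_floor_add_one _
  have ht1 : 9.5 ≤ t' := by
    rw [ht']; have := hs0'.2.2.1; norm_num; linarith
  have ht2 : t' ≤ 4 * T + 1 := by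
    rw [ht']; have := hs0'.2.2.2.1; linarith
  have h1 : ∑ s ∈ (Zf F (T / 2) (4 * T)).filter (fun s => ⌊s.im - t⌋ = k), (mult F s : ℝ) ≤
      (NN F (t' - 1) (t' + 1) : ℝ) := by
    have ht3 : 1 ≤ t' - 1 := by linarith
    rw [NN_eq hF ht3, Nat.cast_sum]
    refine Finset.sum_le_sum_of_subset_of_nonneg ?_ fun _ _ _ => by positivity
    intro s hs
    rw [Finset.mem_filter] at hs
    rw [mem_Zf hF ht3]
    have hs' := (mem_Zf hF hU).mp hs.1
    have e1 : (k : ℝ) ≤ s.im - t := by rw [← hs.2]; exact Int.floor_le _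
    have e2 : s.im - t < k + 1 := by rw [← hs.2]; exact Int.lt_floor_add_one _
    exact ⟨hs'.1, hs'.2.1, by rw [ht']; linarith, by rw [ht']; linarith, hs'.2.2.2.2⟩
  have h2 : (NN F (t' - 1) (t' + 1) : ℝ) ≤ 2 * C * Real.log T := by
    refine (hcount t' (by linarith)).trans ?_
    have h3 : Real.log t' ≤ 2 * Real.log T := by
      have : Real.log (T ^ 2) = 2 * Real.log T := by
        rw [Real.log_pow]; norm_num
      rw [← this]
      apply Real.log_le_log (by linarith)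
      nlinarith
    nlinarith
  calc ∑ s ∈ (Zf F (T / 2) (4 * T)).filter (fun s => ⌊s.im - t⌋ = k), (mult F s : ℝ) * g s
      ≤ ∑ s ∈ (Zf F (T / 2) (4 * T)).filter (fun s => ⌊s.im - t⌋ = k), (mult F s : ℝ) * w k := by
        refine Finset.sum_le_sum fun s hs => ?_
        rw [Finset.mem_filter] at hs
        have := hg s hs.1
        rw [hs.2] at this
        gcongr
    _ = (∑ s ∈ (Zf F (T / 2) (4 * T)).filter (fun s => ⌊s.im - t⌋ = k), (mult F s : ℝ)) * w k := by
        rw [Finset.sum_mul]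
    _ ≤ (2 * C * Real.log T) * w k := by
        have := hw k
        gcongr
        exact h1.trans h2

theorem summable_w : Summable (fun k : ℤ => 8 / (1 + (k : ℝ) ^ 2)) := by
  have h1 : Summable (fun k : ℤ => 1 / (k : ℝ) ^ 2) :=
    (Real.summable_one_div_int_pow (p := 2)).2 (by norm_num)
  have h2 : Summable (fun k : ℤ => if k = 0 then (1 : ℝ) else 0) :=
    (hasSum_ite_eq (0 : ℤ) (1 : ℝ)).summable
  have h3 := (h1.add h2).mul_left 8
  refine Summable.of_nonneg_of_le (fun k => by positivity) (fun k => ?_) h3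
  by_cases hk : k = 0
  · subst hk
    simp
  · rw [if_neg hk, add_zero, ← mul_div_assoc, mul_one]
    have hk' : (k : ℝ) ≠ 0 := by exact_mod_cast hk
    have : 0 < (k : ℝ) ^ 2 := by positivity
    apply div_le_div_of_nonneg_left (by norm_num) this
    linarith

theorem w_bound (y : ℝ) : 2 / (1 + y ^ 2) ≤ 8 / (1 + ((⌊y⌋ : ℤ) : ℝ) ^ 2) := by
  have h1 := Int.floor_le y
  have h2 := Int.lt_floor_add_one y
  set k : ℝ := ((⌊y⌋ : ℤ) : ℝ) with hk
  rw [div_le_div_iff₀ (by positivity) (by positivity)]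
  -- 2 (1 + k^2) ≤ 8 (1 + y^2)
  have h3 : k ^ 2 ≤ (|y| + 1) ^ 2 := by
    apply sq_le_sq'
    · have := neg_abs_le y; linarith
    · have := le_abs_self y; linarith
  have h4 : |y| ^ 2 = y ^ 2 := sq_abs y
  nlinarith [sq_nonneg (|y| - 1)]

theorem zbound {F : ℂ → ℂ} (hF : GoodL F) : ∃ C : ℝ, 0 < C ∧ ∀ T : ℝ, 20 ≤ T →
    ∀ t : ℝ, ∑ s ∈ ZT F T, (mult F s : ℝ) * (2 / (1 + (s.im - t) ^ 2)) ≤ C * Real.log T := by
  obtain ⟨C, hC, h⟩ := zsum hF
  set S := ∑' k : ℤ, 8 / (1 + (k : ℝ) ^ 2) with hS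
  have hS0 : 0 < S := summable_w.tsum_pos (fun k => by positivity) 0 (by positivity)
  refine ⟨C * S, by positivity, fun T hT t => ?_⟩
  have hlog : 0 ≤ Real.log T := Real.log_nonneg (by linarith)
  refine (h T hT t (fun k => 8 / (1 + (k : ℝ) ^ 2)) (fun k => by positivity)
    (fun s => 2 / (1 + (s.im - t) ^ 2)) (fun s _ => w_bound _)).trans ?_
  calc C * Real.log T * ∑ k ∈ (ZT F T).image (fun s => ⌊s.im - t⌋), 8 / (1 + (k : ℝ) ^ 2) ≤
      C * Real.log T * S := by
        gcongr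
        exact summable_w.sum_le_tsum _ (fun k _ => by positivity)
    _ = _ := by ring

theorem half_sq {w : ℂ} (h : 1 ≤ w.re ∨ 1 ≤ |w.im|) : (1 + w.im ^ 2) / 2 ≤ ‖w‖ ^ 2 := by
  rw [← Complex.normSq_eq_norm_sq, Complex.normSq_apply]
  rcases h with h | h
  · nlinarith [sq_nonneg w.im]
  · have h1 : 1 ≤ |w.im| ^ 2 := by nlinarith
    rw [sq_abs] at h1
    nlinarith [sq_nonneg w.re]

theorem term_bound {s ρ : ℂ} (h1 : ρ.re < 1)
    (hcase : 2 ≤ s.re ∨ 1 ≤ |s.im - ρ.im| ∨ ρ.re ≤ 1 / 2) :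
    ‖1 / (s - st ρ) - 1 / (s - ρ)‖ ≤ 2 / (1 + (ρ.im - s.im) ^ 2) := by
  unfold st
  split_ifs with h
  swap
  · rw [sub_self, norm_zero]
    positivity
  have him : (s - (1 - conj ρ)).im = s.im - ρ.im := by simp
  have hre : (s - (1 - conj ρ)).re = s.re - 1 + ρ.re := by simp; ring
  have him2 : (s - ρ).im = s.im - ρ.im := by simp
  have hre2 : (s - ρ).re = s.re - ρ.re := by simp
  have hA : (1 + (s.im - ρ.im) ^ 2) / 2 ≤ ‖s - (1 - conj ρ)‖ ^ 2 := by
    rw [← him]
    apply half_sq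
    rw [him, hre]
    rcases hcase with h2 | h2 | h2
    · left; linarith
    · right; exact h2
    · exfalso; linarith
  have hB : (1 + (s.im - ρ.im) ^ 2) / 2 ≤ ‖s - ρ‖ ^ 2 := by
    rw [← him2]
    apply half_sq
    rw [him2, hre2]
    rcases hcase with h2 | h2 | h2
    · left; linarith
    · right; exact h2
    · exfalso; linarith
  have hA0 : 0 < ‖s - (1 - conj ρ)‖ := by
    by_contra hc
    have : ‖s - (1 - conj ρ)‖ = 0 := le_antisymm (not_lt.1 hc) (norm_nonneg _)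
    rw [this] at hA
    nlinarith [sq_nonneg (s.im - ρ.im)]
  have hB0 : 0 < ‖s - ρ‖ := by
    by_contra hc
    have : ‖s - ρ‖ = 0 := le_antisymm (not_lt.1 hc) (norm_nonneg _)
    rw [this] at hB
    nlinarith [sq_nonneg (s.im - ρ.im)]
  have hprod : (1 + (ρ.im - s.im) ^ 2) / 2 ≤ ‖s - (1 - conj ρ)‖ * ‖s - ρ‖ := by
    have e : (ρ.im - s.im) ^ 2 = (s.im - ρ.im) ^ 2 := by ring
    rw [e]
    apply le_of_sq_le_sq _ (by positivity)
    rw [mul_pow, sq ((1 + (s.im - ρ.im) ^ 2) / 2)]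
    exact mul_le_mul hA hB (by positivity) (by positivity)
  have hd : ‖(1 - conj ρ) - ρ‖ ≤ 1 := by
    have e : (1 - conj ρ) - ρ = ((1 - 2 * ρ.re : ℝ) : ℂ) := by
      apply Complex.ext
      · simp; ring
      · simp
    rw [e, Complex.norm_real, Real.norm_eq_abs, abs_le]
    constructor <;> linarith
  have hA' : s - (1 - conj ρ) ≠ 0 := norm_pos_iff.1 hA0
  have hB' : s - ρ ≠ 0 := norm_pos_iff.1 hB0
  have e1 : 1 / (s - (1 - conj ρ)) - 1 / (s - ρ) =
      ((1 - conj ρ) - ρ) / ((s - (1 - conj ρ)) * (s - ρ)) := by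
    field_simp
    ring
  rw [e1, norm_div, norm_mul, div_le_div_iff₀ (by positivity) (by positivity)]
  nlinarith [norm_nonneg ((1 - conj ρ) - ρ)]

theorem st_re (ρ : ℂ) : (st ρ).re ≤ 1 / 2 := by
  unfold st
  split_ifs with h
  · simp
    linarith
  · exact not_lt.1 h


theorem zt_data {F : ℂ → ℂ} (hF : GoodL F) {T : ℝ} (hT : 20 ≤ T) {ρ : ℂ} :
    ρ ∈ ZT F T ↔ 0 < ρ.re ∧ ρ.re < 1 ∧ T / 2 < ρ.im ∧ ρ.im ≤ 4 * T ∧ F ρ = 0 :=
  mem_Zf hF (by linarith)

theorem kt_eq {F : ℂ → ℂ} {T : ℝ} {Q : ℂ → ℂ} (hQ : Fact F T Q) {s : ℂ} (h1 : 0 < s.re)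
    (h2 : T / 2 < s.im) (h3 : s.im < 4 * T) (h0 : F s ≠ 0) :
    Kt F T Q s = deriv F s / F s +
      ∑ ρ ∈ ZT F T, (mult F ρ : ℂ) * (1 / (s - st ρ) - 1 / (s - ρ)) := by
  rw [hQ.2 s h1 h2 h3 h0]
  unfold Kt
  simp only [mul_sub, mul_one_div, Finset.sum_sub_distrib]
  ring

theorem norm_sum_le' {F : ℂ → ℂ} {T : ℝ} {A : Finset ℂ} {s : ℂ} (hA : A ⊆ ZT F T)
    (h : ∀ ρ ∈ A, ‖1 / (s - st ρ) - 1 / (s - ρ)‖ ≤ 2 / (1 + (ρ.im - s.im) ^ 2)) :
    ‖∑ ρ ∈ A, (mult F ρ : ℂ) * (1 / (s - st ρ) - 1 / (s - ρ))‖ ≤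
      ∑ ρ ∈ ZT F T, (mult F ρ : ℝ) * (2 / (1 + (ρ.im - s.im) ^ 2)) := by
  refine (norm_sum_le _ _).trans ?_
  refine le_trans (Finset.sum_le_sum fun ρ hρ => ?_)
    (Finset.sum_le_sum_of_subset_of_nonneg hA fun ρ _ _ => by positivity)
  rw [norm_mul, Complex.norm_natCast]
  exact mul_le_mul_of_nonneg_left (h ρ hρ) (by positivity)

theorem re_nonneg_term {s ρ : ℂ} (m : ℕ) (h : 1 / 2 < s.re) :
    0 ≤ ((m : ℂ) * (1 / (s - st ρ))).re := by
  have h1 := st_re ρ
  have e : ((m : ℂ) * (1 / (s - st ρ))).re = m * (1 / (s - st ρ)).re := by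
    have : (m : ℂ) = ((m : ℝ) : ℂ) := by push_cast; rfl
    rw [this, Complex.re_ofReal_mul]
  rw [e, one_div, Complex.inv_re]
  apply mul_nonneg (by positivity)
  apply div_nonneg _ (Complex.normSq_nonneg _)
  rw [Complex.sub_re]
  linarith

theorem mem_ball_of {s ρ : ℂ} (h1 : 1 / 2 < ρ.re) (h2 : ρ.re < 1)
    (hn : ρ ∉ closedBall (⟨2, s.im⟩ : ℂ) 1.81) : 1 ≤ |s.im - ρ.im| := by
  by_contra hc
  push Not at hc
  apply hn
  rw [mem_closedBall, dist_eq_norm]
  apply abs_le_of_sq_le_sq' _ (by norm_num) |>.2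
  rw [← Complex.normSq_eq_norm_sq, Complex.normSq_apply]
  simp only [sub_re, sub_im]
  rw [abs_lt] at hc
  nlinarith

theorem lb_main {F : ℂ → ℂ} (hF : GoodL F) : ∃ C : ℝ, 0 < C ∧ ∀ T : ℝ, 20 ≤ T →
    ∀ Q : ℂ → ℂ, Fact F T Q → ∀ s : ℂ, 1 / 2 < s.re → 3 / 4 * T ≤ s.im → s.im ≤ 3 * T →
      F s ≠ 0 → -(C * Real.log T) ≤ (Kt F T Q s).re := by
  classical
  obtain ⟨K, hK, hdata⟩ := ball_data hF
  obtain ⟨C1, hC1, hsum⟩ := zbound hF
  obtain ⟨K2, hK2, hright⟩ := right_bound hF 2 (by norm_num)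
  have hlq : 0 < Real.log (1.9 / 1.81) := Real.log_pos (by norm_num)
  have hlr : 0 < Real.log (1.81 / (1.9 - 1.81)) := Real.log_pos (by norm_num)
  set E : ℝ := Real.log (1.81 / (1.9 - 1.81)) / Real.log (1.9 / 1.81) with hE
  have hE0 : 0 < E := by positivity
  set D : ℝ := 2 * (2 * K + 2 * K * E + 1) * 1.7 / (1.81 - 1.7) / (1.7 - 1.5) with hD
  have hD0 : 0 < D := by
    have : (0 : ℝ) < 1.81 - 1.7 := by norm_num
    have : (0 : ℝ) < 1.7 - 1.5 := by norm_num
    positivity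
  refine ⟨C1 + K2 + D, by positivity, ?_⟩
  intro T hT Q hQ s h1 h2 h3 h0
  have hlT : 1 ≤ Real.log T := one_le_log (by linarith)
  have ht2 : T / 2 < s.im := by linarith
  have ht3 : s.im < 4 * T := by linarith
  have hs := hsum T hT s.im
  rcases le_or_gt 2 s.re with hre | hre
  · -- to the right of `Re s = 2`
    rw [kt_eq hQ (by linarith) ht2 ht3 h0]
    have e1 := hright s hre (by linarith)
    have e2 := norm_sum_le' (F := F) (T := T) (s := s) (Finset.Subset.refl _) (fun ρ hρ => by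
      have hρ' := (zt_data hF hT).1 hρ
      exact term_bound hρ'.2.1 (Or.inl hre))
    have e3 := (Complex.abs_re_le_norm (deriv F s / F s)).trans e1
    have e4 := (Complex.abs_re_le_norm (∑ ρ ∈ ZT F T, (mult F ρ : ℂ) *
      (1 / (s - st ρ) - 1 / (s - ρ)))).trans (e2.trans hs)
    rw [abs_le] at e3 e4
    rw [Complex.add_re]
    nlinarith
  · -- near the critical line
    obtain ⟨M, hM1, han, hF0, hb, hMc, hL0, hLM⟩ := hdata s.im (by linarith)
    obtain ⟨S, g, hS, hg, hfg, hg0, hlg⟩ := local_fact (f := F) (c := ⟨2, s.im⟩) (r := 1.81)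
      (r1 := 1.7) (r2 := 1.5) (R := 1.9) (M := M) (by norm_num) (by norm_num) (by norm_num)
      (by norm_num) (by norm_num) hM1 hMc han hF0 hb
    have hsball : s ∈ closedBall (⟨2, s.im⟩ : ℂ) 1.5 := by
      rw [mem_closedBall, dist_eq_norm]
      apply abs_le_of_sq_le_sq' _ (by norm_num) |>.2
      rw [← Complex.normSq_eq_norm_sq, Complex.normSq_apply]
      simp only [sub_re, sub_im, sub_self]
      nlinarith
    have hsR : s ∈ closedBall (⟨2, s.im⟩ : ℂ) 1.9 :=
      closedBall_subset_closedBall (by norm_num) hsball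
    have hsr : s ∈ closedBall (⟨2, s.im⟩ : ℂ) 1.81 :=
      closedBall_subset_closedBall (by norm_num) hsball
    have hS' : ∀ ρ ∈ S, 0 < ρ.re ∧ ρ.re < 1 ∧ T / 2 < ρ.im ∧ ρ.im ≤ 4 * T ∧ F ρ = 0 := by
      intro ρ hρ
      obtain ⟨g1, g2⟩ := hS ρ hρ
      rw [mem_closedBall, dist_eq_norm] at g1
      have g3 := (Complex.abs_re_le_norm (ρ - ⟨2, s.im⟩)).trans g1
      have g4 := (Complex.abs_im_le_norm (ρ - ⟨2, s.im⟩)).trans g1
      simp only [sub_re, sub_im] at g3 g4
      rw [abs_le] at g3 g4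
      have him1 : 1 ≤ ρ.im := by norm_num at g4 ⊢; linarith [g4.1]
      have hre0 : 0 < ρ.re := by norm_num at g3 ⊢; linarith [g3.1]
      refine ⟨hre0, ?_, ?_, ?_, g2⟩
      · by_contra hcon
        push Not at hcon
        exact hF.nzr ρ hcon him1 g2
      · norm_num at g4 ⊢; linarith [g4.1]
      · norm_num at g4 ⊢; linarith [g4.2]
    have hsS : ∀ ρ ∈ S, s ≠ ρ := by
      intro ρ hρ he
      apply h0
      rw [he]
      exact (hS ρ hρ).2
    set B : Finset ℂ := S.toFinset with hB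
    have hBsub : B ⊆ ZT F T := by
      intro ρ hρ
      rw [hB, Multiset.mem_toFinset] at hρ
      exact (zt_data hF hT).2 (hS' ρ hρ)
    have hcount : ∀ ρ ∈ B, S.count ρ = mult F ρ := by
      intro ρ hρ
      rw [hB, Multiset.mem_toFinset] at hρ
      have g1 := (hS ρ hρ).1
      have g1' : ρ ∈ closedBall (⟨2, s.im⟩ : ℂ) 1.9 := closedBall_subset_closedBall (by norm_num) g1
      exact count_eq_mult (han ρ g1') (hg ρ g1') (hg0 ρ g1) hfg
    -- the logarithmic derivative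
    have hld : deriv F s / F s = ∑ ρ ∈ B, (mult F ρ : ℂ) * (1 / (s - ρ)) + logDeriv g s := by
      have e1 : F = fun w => Pf S w * g w := funext hfg
      rw [← logDeriv_apply]
      have e2 : logDeriv F s = logDeriv (Pf S) s + logDeriv g s := by
        conv_lhs => rw [e1]
        exact logDeriv_mul s (Pf_ne_zero hsS) (hg0 s hsr) (Pf_diff S s)
          (hg s hsR).differentiableAt
      rw [e2, Pf_logDeriv_eq hsS, Finset.sum_multiset_map_count]
      congr 1
      refine Finset.sum_congr rfl fun ρ hρ => ?_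
      rw [hcount ρ hρ, nsmul_eq_mul]
    have hkt : Kt F T Q s = logDeriv g s +
        ∑ ρ ∈ ZT F T \ B, (mult F ρ : ℂ) * (1 / (s - st ρ) - 1 / (s - ρ)) +
        ∑ ρ ∈ B, (mult F ρ : ℂ) * (1 / (s - st ρ)) := by
      rw [kt_eq hQ (by linarith) ht2 ht3 h0, hld, ← Finset.sum_sdiff hBsub]
      have e3 : ∑ ρ ∈ B, (mult F ρ : ℂ) * (1 / (s - st ρ) - 1 / (s - ρ)) =
          ∑ ρ ∈ B, (mult F ρ : ℂ) * (1 / (s - st ρ)) -
            ∑ ρ ∈ B, (mult F ρ : ℂ) * (1 / (s - ρ)) := by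
        rw [← Finset.sum_sub_distrib]
        refine Finset.sum_congr rfl fun ρ _ => ?_
        ring
      rw [e3]
      ring
    have hg1 : ‖logDeriv g s‖ ≤ D * Real.log T := by
      refine (hlg s hsball).trans ?_
      set L := Real.log (M / ‖F ⟨2, s.im⟩‖) with hL
      have hL2 : L ≤ 2 * K * Real.log T := by
        have e1 : Real.log s.im ≤ 2 * Real.log T := by
          have : Real.log (T ^ 2) = 2 * Real.log T := by
            rw [Real.log_pow]; norm_num
          rw [← this]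
          apply Real.log_le_log (by linarith)
          nlinarith
        have := mul_le_mul_of_nonneg_left e1 hK.le
        linarith
      have e5 : L + L / Real.log (1.9 / 1.81) * Real.log (1.81 / (1.9 - 1.81)) + 1 ≤
          (2 * K + 2 * K * E + 1) * Real.log T := by
        have f1 : L / Real.log (1.9 / 1.81) * Real.log (1.81 / (1.9 - 1.81)) = L * E := by
          rw [hE]; ring
        rw [f1]
        nlinarith [mul_le_mul_of_nonneg_right hL2 hE0.le]
      have g1 : (0 : ℝ) < 1.81 - 1.7 := by norm_num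
      have g2 : (0 : ℝ) < 1.7 - 1.5 := by norm_num
      calc 2 * (L + L / Real.log (1.9 / 1.81) * Real.log (1.81 / (1.9 - 1.81)) + 1) * 1.7 /
            (1.81 - 1.7) / (1.7 - 1.5) ≤
          2 * ((2 * K + 2 * K * E + 1) * Real.log T) * 1.7 / (1.81 - 1.7) / (1.7 - 1.5) := by
            gcongr
        _ = D * Real.log T := by rw [hD]; ring
    have hg2 := norm_sum_le' (F := F) (T := T) (s := s) (A := ZT F T \ B)
      Finset.sdiff_subset (fun ρ hρ => by
        rw [Finset.mem_sdiff] at hρ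
        obtain ⟨a1, a2, a3, a4, a5⟩ := (zt_data hF hT).1 hρ.1
        refine term_bound a2 (Or.inr ?_)
        rcases le_or_gt ρ.re (1 / 2) with a6 | a6
        · exact Or.inr a6
        · left
          apply mem_ball_of a6 a2
          intro hmem
          apply hρ.2
          rw [hB, Multiset.mem_toFinset]
          by_contra hnS
          have b1 : Pf S ρ ≠ 0 := Pf_ne_zero fun x hx he => hnS (he ▸ hx)
          have b2 := hfg ρ
          rw [a5] at b2
          exact mul_ne_zero b1 (hg0 ρ hmem) b2.symm)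
    have hg3 : 0 ≤ (∑ ρ ∈ B, (mult F ρ : ℂ) * (1 / (s - st ρ))).re := by
      rw [Complex.re_sum]
      exact Finset.sum_nonneg fun ρ _ => re_nonneg_term _ h1
    rw [hkt, Complex.add_re, Complex.add_re]
    have e3 := (Complex.abs_re_le_norm (logDeriv g s)).trans hg1
    have e4 := (Complex.abs_re_le_norm _).trans (hg2.trans hs)
    rw [abs_le] at e3 e4
    nlinarith

theorem kt_cont {F : ℂ → ℂ} {T : ℝ} {Q : ℂ → ℂ} (hQ : Fact F T Q) {s : ℂ} (h1 : 1 / 2 < s.re)
    (h2 : T / 2 < s.im) (h3 : s.im < 4 * T) : ContinuousAt (Kt F T Q) s := by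
  unfold Kt
  refine ContinuousAt.add ?_ (hQ.1 s (by linarith) h2 h3).continuousAt
  refine tendsto_finsetSum _ fun ρ _ => ?_
  have h4 : s - st ρ ≠ 0 := by
    intro h
    have := congrArg Complex.re h
    rw [Complex.sub_re, Complex.zero_re] at this
    linarith [st_re ρ]
  exact (continuousAt_const.div (continuousAt_id.sub continuousAt_const) h4)

theorem t_LB : S_LB := by
  intro F hF
  obtain ⟨C, hC, hmain⟩ := lb_main hF
  refine ⟨C, 20, hC, ?_⟩
  intro T hT Q hQ s h1 h2 h3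
  by_cases h0 : F s = 0
  swap
  · exact hmain T hT Q hQ s h1 h2 h3 h0
  -- a zero of `F`: continuity
  have hcont : ContinuousAt (Kt F T Q) s := kt_cont hQ h1 (by linarith) (by linarith)
  have hphi : Tendsto (fun x : ℝ => s + (x : ℂ)) (𝓝[>] 0) (𝓝[≠] s) := by
    rw [tendsto_nhdsWithin_iff]
    constructor
    · have : Continuous fun x : ℝ => s + (x : ℂ) := by fun_prop
      have h4 := this.tendsto 0
      rw [Complex.ofReal_zero, add_zero] at h4
      exact h4.mono_left nhdsWithin_le_nhds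
    · filter_upwards [self_mem_nhdsWithin] with x hx
      have hx' : (x : ℂ) ≠ 0 := by
        have : x ≠ 0 := ne_of_gt hx
        exact_mod_cast this
      simpa using hx'
  have hlim : Tendsto (fun x : ℝ => (Kt F T Q (s + (x : ℂ))).re) (𝓝[>] 0)
      (𝓝 (Kt F T Q s).re) :=
    (Complex.continuous_re.tendsto _).comp
      (hcont.tendsto.comp (hphi.mono_right nhdsWithin_le_nhds))
  have hne : ∀ᶠ z in 𝓝[≠] s, F z ≠ 0 := by
    rcases (hF.an s (by linarith)).eventually_eq_zero_or_eventually_ne_zero with h | h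
    · exfalso
      have hU : IsPreconnected {s : ℂ | 0 < s.im} := (convex_halfSpace_im_gt 0).isPreconnected
      have hz := AnalyticOnNhd.eqOn_zero_of_preconnected_of_eventuallyEq_zero
        (f := F) (U := {s : ℂ | 0 < s.im}) (fun s hs => hF.an s hs) hU
        (z₀ := s) (by simp only [mem_ofPred_eq]; linarith) h
      have h2 : F ⟨2, 1⟩ = 0 := hz (by simp only [mem_ofPred_eq]; norm_num)
      obtain ⟨c, hc, hl⟩ := hF.lower
      have h3 := hl 1 le_rfl
      rw [h2, norm_zero] at h3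
      linarith
    · exact h
  have hev : ∀ᶠ x : ℝ in 𝓝[>] 0, -(C * Real.log T) ≤ (Kt F T Q (s + (x : ℂ))).re := by
    filter_upwards [hphi.eventually hne, self_mem_nhdsWithin] with x hx hx0
    have hx0' : 0 < x := hx0
    refine hmain T hT Q hQ (s + x) ?_ ?_ ?_ hx
    · simp
      linarith
    · simpa using h2
    · simpa using h3
  exact ge_of_tendsto hlim hev

end

end Pool.Agent.H997.CLLB
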